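import Pool.Graph.R_pool_sql_team_seeded_47a924f7.T6.H1.CT.Defs
import Pool.Graph.R_pool_sql_team_seeded_47a924f7.T6.H1.CT.NM
import Pool.Graph.R_pool_sql_team_seeded_47a924f7.T6.H1.CT.GAU
import Pool.Graph.R_pool_sql_team_seeded_47a924f7.T6.H1.CT.PTH
import Pool.Graph.R_pool_sql_team_seeded_47a924f7.T6.H1.CT.TEL

/-! # Time-dependent parameters: marginals, gauge symmetry, path probabilities, telescoping -/

set_option autoImplicit false

namespace Pool.Agent.Helper15.CT

open Classical Pool.Agent.T6.H1.CT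

/-- the law with the parameter `θ k` at the step `k` -/
noncomputable def muT (θ : ℕ → ℝ) {m : ℕ} (ω : Cfg m) : ℝ :=
  ∏ k : Fin m, ∏ τ : Bool, (1 + θ k.val * sg τ * sg (ω k τ).2) / (2 * ((k.val : ℝ) + 1))

/-- the law of the configuration together with the set of open edges -/
noncomputable def nuT (θ : ℕ → ℝ) {t : ℕ} (ω : Cfg t) (b : Fin t → Bool → Bool) : ℝ :=
  ∏ k : Fin t, ∏ τ : Bool, vv (θ k.val) k.val τ (ω k τ) (b k τ)

theorem muT_const (θ : ℝ) {m : ℕ} (ω : Cfg m) : muT (fun _ => θ) ω = mu θ ω := rfl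

theorem muT_congr {θ θ' : ℕ → ℝ} {m : ℕ} (h : ∀ k < m, θ k = θ' k) (ω : Cfg m) :
    muT θ ω = muT θ' ω := by
  unfold muT
  refine Finset.prod_congr rfl fun k _ => ?_
  rw [h k.val k.isLt]

theorem mnT (θ : ℕ → ℝ) (t : ℕ) (ω : Cfg t) :
    muT θ ω = ∑ b : Fin t → Bool → Bool, nuT θ ω b := by
  unfold muT nuT vv
  rw [nm_prod_sum (fun (k : Fin t) (c : Bool → Bool) => ∏ τ : Bool, (if c τ = true then
    (if (ω k τ).2 = τ then θ k.val / ((k.val : ℝ) + 1) else 0) else
      (1 - θ k.val) / (2 * ((k.val : ℝ) + 1))))]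
  refine Finset.prod_congr rfl fun k _ => ?_
  rw [nm_prod_sum (fun (τ : Bool) (β : Bool) => (if β = true then
    (if (ω k τ).2 = τ then θ k.val / ((k.val : ℝ) + 1) else 0) else
      (1 - θ k.val) / (2 * ((k.val : ℝ) + 1))))]
  refine Finset.prod_congr rfl fun τ _ => ?_
  have hk : ((k.val : ℝ) + 1) ≠ 0 := by positivity
  rw [Fintype.sum_bool]
  generalize (ω k τ).2 = ρ
  cases τ <;> cases ρ <;> simp [sg] <;> field_simp <;> ring

theorem nuT_nonneg {θ : ℕ → ℝ} (h0 : ∀ k, 0 ≤ θ k) (h1 : ∀ k, θ k ≤ 1) {t : ℕ} (ω : Cfg t)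
    (b : Fin t → Bool → Bool) : 0 ≤ nuT θ ω b := by
  unfold nuT
  exact Finset.prod_nonneg fun k _ => Finset.prod_nonneg fun τ _ => vv_nonneg (h0 _) (h1 _) _ _ _ _

theorem muT_nonneg {θ : ℕ → ℝ} (h0 : ∀ k, 0 ≤ θ k) (h1 : ∀ k, θ k ≤ 1) {t : ℕ} (ω : Cfg t) :
    0 ≤ muT θ ω := by
  rw [mnT]
  exact Finset.sum_nonneg fun b _ => nuT_nonneg h0 h1 ω b

theorem muT_sum (θ : ℕ → ℝ) (t : ℕ) : ∑ ω : Cfg t, muT θ ω = 1 := by
  unfold muT
  rw [nm_prod_sum (fun (k : Fin t) (c : Bool → Fin (k.val + 1) × Bool) =>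
    ∏ τ : Bool, (1 + θ k.val * sg τ * sg (c τ).2) / (2 * ((k.val : ℝ) + 1)))]
  refine Finset.prod_eq_one fun k _ => ?_
  rw [nm_prod_sum (fun (τ : Bool) (β : Fin (k.val + 1) × Bool) =>
    (1 + θ k.val * sg τ * sg β.2) / (2 * ((k.val : ℝ) + 1)))]
  refine Finset.prod_eq_one fun τ _ => ?_
  have hk : ((k.val : ℝ) + 1) ≠ 0 := by positivity
  rw [Fintype.sum_prod_type]
  simp only [Fintype.sum_bool]
  rw [Finset.sum_const, Finset.card_univ, Fintype.card_fin, nsmul_eq_mul]
  unfold sg
  push_cast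
  simp
  field_simp
  ring

theorem nuT_sum (θ : ℕ → ℝ) (t : ℕ) :
    ∑ ω : Cfg t, ∑ b : Fin t → Bool → Bool, nuT θ ω b = 1 := by
  rw [← muT_sum θ t]
  exact Finset.sum_congr rfl fun ω _ => (mnT θ t ω).symm

/-! ## Gauge symmetry -/

theorem nuT_nw {t : ℕ} (θ : ℕ → ℝ) (X : Fin (t + 1) → Bool) (ω : Cfg t)
    (b : Fin t → Bool → Bool) (hX : ∀ k τ, b k τ = true → X k.succ = X (par ω k τ).1) :
    nuT θ (GAUx.nw X ω) (GAUx.nb X b) = nuT θ ω b := by
  unfold nuT
  apply Finset.prod_congr rfl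
  intro k _
  have hinv : Function.Involutive (fun τ : Bool => xor (X k.succ) τ) := fun τ => GAUx.xx _ _
  rw [← Equiv.prod_comp hinv.toPerm]
  apply Finset.prod_congr rfl
  intro τ _
  rw [Function.Involutive.coe_toPerm]
  simp only [GAUx.nb, GAUx.nw, GAUx.xx]
  unfold vv
  by_cases hb : b k τ = true
  · rw [if_pos hb, if_pos hb]
    have h := hX k τ hb
    rw [← h]
    have : (xor (X k.succ) (ω k τ).2 = xor (X k.succ) τ) ↔ (ω k τ).2 = τ := by
      cases X k.succ <;> cases (ω k τ).2 <;> cases τ <;> simp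
    simp only [this]
  · rw [if_neg hb, if_neg hb]

open GAUx in
theorem gauT (hIA : StmIA) (h : Func) (hg : Good h) (θ : ℕ → ℝ) (t : ℕ) :
    ∑ ω : Cfg t, muT θ ω * ∑ u : Bool → Node t, sg (u true).2 * sg (u false).2 * ev2 h ω u =
    ∑ ω : Cfg t, ∑ b : Fin t → Bool → Bool, nuT θ ω b *
      ∑ u : Bool → Node t, ck ω b (u true) (u false) * ev2 h ω u := by
  set F : Cfg t × (Fin t → Bool → Bool) × (Bool → Node t) → ℝ := fun p =>
    nuT θ p.1 p.2.1 * ((sg (p.2.2 true).2 * sg (p.2.2 false).2 -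
      ck p.1 p.2.1 (p.2.2 true) (p.2.2 false)) * ev2 h p.1 p.2.2) with hF
  have hneg : ∀ p, F (Phi p) = - F p := by
    rintro ⟨ω, b, u⟩
    by_cases hr : (og ω b).Reachable (u true).1 (u false).1
    · have h1 : F (ω, b, u) = 0 := by
        simp only [hF, ck, if_pos hr, sub_self, zero_mul, mul_zero]
      have h2 : F (Phi (ω, b, u)) = 0 := by
        have hr' : (og (Phi (ω, b, u)).1 (Phi (ω, b, u)).2.1).Reachable
            ((Phi (ω, b, u)).2.2 true).1 ((Phi (ω, b, u)).2.2 false).1 := by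
          show (og (nw (XX ω b (u true).1) ω) (GAUx.nb (XX ω b (u true).1) b)).Reachable
            (u true).1 (u false).1
          rw [og_nw]
          exact hr
        simp only [hF, ck, if_pos hr', sub_self, zero_mul, mul_zero]
      rw [h1, h2, neg_zero]
    · have hr' : ¬ (og (Phi (ω, b, u)).1 (Phi (ω, b, u)).2.1).Reachable
          ((Phi (ω, b, u)).2.2 true).1 ((Phi (ω, b, u)).2.2 false).1 := by
        show ¬ (og (nw (XX ω b (u true).1) ω) (GAUx.nb (XX ω b (u true).1) b)).Reachable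
          (u true).1 (u false).1
        rw [og_nw]
        exact hr
      have hXt : XX ω b (u true).1 (u true).1 = true := by
        unfold XX
        exact decide_eq_true (SimpleGraph.Reachable.refl _)
      have hXf : XX ω b (u true).1 (u false).1 = false := by
        unfold XX
        exact decide_eq_false hr
      have e1 : sg ((Phi (ω, b, u)).2.2 true).2 = - sg (u true).2 := by
        show sg (xor (XX ω b (u true).1 (u true).1) (u true).2) = _
        rw [hXt, Bool.true_xor, sg_not]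
      have e2 : sg ((Phi (ω, b, u)).2.2 false).2 = sg (u false).2 := by
        show sg (xor (XX ω b (u true).1 (u false).1) (u false).2) = _
        rw [hXf, Bool.false_xor]
      have e3 : nuT θ (Phi (ω, b, u)).1 (Phi (ω, b, u)).2.1 = nuT θ ω b :=
        nuT_nw θ _ ω b (fun k τ hb => XX_open ω b _ k τ hb)
      have e4 : ev2 h (Phi (ω, b, u)).1 (Phi (ω, b, u)).2.2 = ev2 h ω u :=
        ev2_nw hIA h hg _ ω u
      simp only [hF, ck, if_neg hr, if_neg hr', e1, e2, e3, e4]
      ring
  have hsum : ∑ p, F p = 0 := by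
    have h1 : ∑ p, F (Phi p) = ∑ p, F p :=
      Equiv.sum_comp (Function.Involutive.toPerm Phi Phi_Phi) F
    simp only [hneg, Finset.sum_neg_distrib] at h1
    linarith
  have hexp : ∑ p, F p = ∑ ω : Cfg t, ∑ b : Fin t → Bool → Bool, nuT θ ω b *
      ∑ u : Bool → Node t, ((sg (u true).2 * sg (u false).2 - ck ω b (u true) (u false)) *
        ev2 h ω u) := by
    rw [Fintype.sum_prod_type]
    apply Finset.sum_congr rfl
    intro ω _
    rw [Fintype.sum_prod_type]
    apply Finset.sum_congr rfl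
    intro b _
    rw [Finset.mul_sum]
  rw [hsum] at hexp
  have hL : ∑ ω : Cfg t, muT θ ω * ∑ u : Bool → Node t,
      sg (u true).2 * sg (u false).2 * ev2 h ω u =
      ∑ ω : Cfg t, ∑ b : Fin t → Bool → Bool, nuT θ ω b * ∑ u : Bool → Node t,
        sg (u true).2 * sg (u false).2 * ev2 h ω u := by
    apply Finset.sum_congr rfl
    intro ω _
    rw [mnT θ t ω, Finset.sum_mul]
  rw [hL, ← sub_eq_zero, ← Finset.sum_sub_distrib]
  rw [hexp]
  apply Finset.sum_congr rfl
  intro ω _
  rw [← Finset.sum_sub_distrib]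
  apply Finset.sum_congr rfl
  intro b _
  rw [← mul_sub, ← Finset.sum_sub_distrib]
  congr 1
  apply Finset.sum_congr rfl
  intro u _
  ring

/-! ## Paths -/

theorem kap_mono {θ θ' : ℝ} (h : θ ≤ θ') (s a : ℕ) : kap θ s a ≤ kap θ' s a := by
  unfold kap
  exact div_le_div_of_nonneg_right (by linarith) (Nat.cast_nonneg _)

theorem pthT {θ : ℕ → ℝ} (h0 : ∀ k, 0 ≤ θ k) (h1 : ∀ k, θ k ≤ 1) (Θ : ℝ) (hΘ : ∀ k, θ k ≤ Θ)
    (t r : ℕ) (p : Fin (r + 1) → Fin (t + 1)) (hp : Function.Injective p) :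
    ∑ ω : Cfg t, ∑ b : Fin t → Bool → Bool, nuT θ ω b *
      (if ∀ i : Fin r, (og ω b).Adj (p i.castSucc) (p i.succ) then 1 else 0) ≤
    ∏ i : Fin r, kap Θ (p i.castSucc).val (p i.succ).val := by
  have hne : ∀ i : Fin r, (p i.castSucc).val ≠ (p i.succ).val := by
    intro i h
    have := hp (Fin.ext h)
    exact absurd this (ne_of_lt (Fin.castSucc_lt_succ))
  have hev : ∀ (ω : Cfg t) (b : Fin t → Bool → Bool),
      nuT θ ω b * (if ∀ i : Fin r, (og ω b).Adj (p i.castSucc) (p i.succ) then 1 else 0) ≤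
      ∏ k : Fin t, ((∏ τ, vv (θ k.val) k.val τ (ω k τ) (b k τ)) *
        ind (∀ i ∈ (Finset.univ.filter fun i : Fin r =>
            max (p i.castSucc).val (p i.succ).val = k.val + 1),
          ∃ τ, b k τ = true ∧ (ω k τ).1.val = min (p i.castSucc).val (p i.succ).val)) := by
    intro ω b
    have hn : 0 ≤ ∏ k : Fin t, ((∏ τ, vv (θ k.val) k.val τ (ω k τ) (b k τ)) *
        ind (∀ i ∈ (Finset.univ.filter fun i : Fin r =>
            max (p i.castSucc).val (p i.succ).val = k.val + 1),
          ∃ τ, b k τ = true ∧ (ω k τ).1.val = min (p i.castSucc).val (p i.succ).val)) :=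
      Finset.prod_nonneg fun k _ => mul_nonneg
        (Finset.prod_nonneg fun τ _ => vv_nonneg (h0 _) (h1 _) _ _ _ _) (ind_nonneg _)
    by_cases hA : ∀ i : Fin r, (og ω b).Adj (p i.castSucc) (p i.succ)
    · rw [if_pos hA, mul_one, nuT, Finset.prod_mul_distrib]
      have hE : ∀ k : Fin t, ind (∀ i ∈ (Finset.univ.filter fun i : Fin r =>
            max (p i.castSucc).val (p i.succ).val = k.val + 1),
          ∃ τ, b k τ = true ∧ (ω k τ).1.val = min (p i.castSucc).val (p i.succ).val) = 1 := by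
        intro k
        refine if_pos ?_
        intro i hi
        have hi' : max (p i.castSucc).val (p i.succ).val = k.val + 1 :=
          (Finset.mem_filter.1 hi).2
        have had := hA i
        rw [og, SimpleGraph.fromRel_adj] at had
        obtain ⟨_, had⟩ := had
        rcases had with ⟨k', τ, hb, hs, ha⟩ | ⟨k', τ, hb, hs, ha⟩
        · have e1 : (p i.castSucc).val = k'.val + 1 := by rw [hs]; rfl
          have e2 := (ω k' τ).1.isLt
          have e3 : k' = k := by
            apply Fin.ext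
            omega
          subst e3
          exact ⟨τ, hb, by omega⟩
        · have e1 : (p i.succ).val = k'.val + 1 := by rw [hs]; rfl
          have e2 := (ω k' τ).1.isLt
          have e3 : k' = k := by
            apply Fin.ext
            omega
          subst e3
          exact ⟨τ, hb, by omega⟩
      rw [Finset.prod_congr rfl (fun k _ => hE k), Finset.prod_const_one, mul_one]
    · rw [if_neg hA, mul_zero]
      exact hn
  refine (Finset.sum_le_sum fun ω _ => Finset.sum_le_sum fun b _ => hev ω b).trans ?_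
  have hsp := sum_prod_dep (ι := Fin t) (A := fun k => Bool → Fin (k.val + 1) × Bool)
    (B := fun _ => Bool → Bool)
    (fun k f c => (∏ τ, vv (θ k.val) k.val τ (f τ) (c τ)) *
        ind (∀ i ∈ (Finset.univ.filter fun i : Fin r =>
            max (p i.castSucc).val (p i.succ).val = k.val + 1),
          ∃ τ, c τ = true ∧ (f τ).1.val = min (p i.castSucc).val (p i.succ).val))
  refine (le_of_eq hsp).trans ?_
  have hk : ∀ k : Fin t, ∑ f : Bool → Fin (k.val + 1) × Bool, ∑ c : Bool → Bool,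
      (∏ τ, vv (θ k.val) k.val τ (f τ) (c τ)) *
        ind (∀ i ∈ (Finset.univ.filter fun i : Fin r =>
            max (p i.castSucc).val (p i.succ).val = k.val + 1),
          ∃ τ, c τ = true ∧ (f τ).1.val = min (p i.castSucc).val (p i.succ).val) ≤
      ∏ i : Fin r, (if max (p i.castSucc).val (p i.succ).val = k.val + 1 then
        kap Θ (p i.castSucc).val (p i.succ).val else 1) := by
    intro k
    refine (pth_step (h0 k.val) (h1 k.val) k.val
      (fun i : Fin r => min (p i.castSucc).val (p i.succ).val)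
      (Finset.univ.filter fun i : Fin r =>
        max (p i.castSucc).val (p i.succ).val = k.val + 1) ?_).trans ?_
    · intro i hi l hl hil
      have hi' : max (p i.castSucc).val (p i.succ).val = k.val + 1 := by simpa using hi
      have hl' : max (p l.castSucc).val (p l.succ).val = k.val + 1 := by simpa using hl
      simp only at hil
      have h2 : ((p i.castSucc).val = (p l.castSucc).val ∧ (p i.succ).val = (p l.succ).val) ∨
          ((p i.castSucc).val = (p l.succ).val ∧ (p i.succ).val = (p l.castSucc).val) := by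
        omega
      rcases h2 with ⟨h3, _⟩ | ⟨h3, h4⟩
      · exact Fin.castSucc_injective r (hp (Fin.ext h3))
      · have h5 := hp (Fin.ext h3)
        have h6 := hp (Fin.ext h4)
        have h7 := congrArg Fin.val h5
        have h8 := congrArg Fin.val h6
        simp only [Fin.val_castSucc, Fin.val_succ] at h7 h8
        omega
    · rw [← Finset.prod_filter, ← Finset.prod_const]
      refine Finset.prod_le_prod (fun i _ => ?_) (fun i hi => ?_)
      · have := h0 k.val
        positivity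
      · have hi' : max (p i.castSucc).val (p i.succ).val = k.val + 1 :=
          (Finset.mem_filter.1 hi).2
        refine le_trans (le_of_eq ?_) (kap_mono (hΘ k.val) _ _)
        unfold kap
        rw [hi']
        push_cast
        rfl
  refine (Finset.prod_le_prod (fun k _ => ?_) (fun k _ => hk k)).trans (le_of_eq ?_)
  · exact Finset.sum_nonneg fun f _ => Finset.sum_nonneg fun c _ => mul_nonneg
      (Finset.prod_nonneg fun τ _ => vv_nonneg (h0 _) (h1 _) _ _ _ _) (ind_nonneg _)
  · rw [Finset.prod_comm]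
    refine Finset.prod_congr rfl fun i _ => ?_
    have hb1 := (p i.castSucc).isLt
    have hb2 := (p i.succ).isLt
    have hne' := hne i
    rw [Finset.prod_eq_single (⟨max (p i.castSucc).val (p i.succ).val - 1, by omega⟩ : Fin t)]
    · rw [if_pos]
      simp only
      omega
    · intro k _ hk
      rw [if_neg]
      intro h
      apply hk
      apply Fin.ext
      simp only
      omega
    · intro h
      exact absurd (Finset.mem_univ _) h

/-! ## Telescoping -/

theorem muT_snoc {t : ℕ} (θ : ℕ → ℝ) (ω : Cfg t) (z : Bool → Node t) :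
    muT θ (tsn ω z) = muT θ ω * ((1 + θ t * sg (z true).2) * (1 - θ t * sg (z false).2) /
      (2 * ((t : ℝ) + 1)) ^ 2) := by
  unfold muT
  rw [Fin.prod_univ_castSucc]
  have h1 : ∀ k : Fin t, tsn ω z k.castSucc = ω k := fun k => by
    unfold tsn
    exact Fin.snoc_castSucc (α := fun k : Fin (t + 1) => Bool → Fin (k.val + 1) × Bool) z ω k
  have h2 : tsn ω z (Fin.last t) = z := by
    unfold tsn
    exact Fin.snoc_last (α := fun k : Fin (t + 1) => Bool → Fin (k.val + 1) × Bool) z ω
  congr 1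
  · refine Finset.prod_congr rfl fun k _ => ?_
    refine Finset.prod_congr rfl fun τ _ => ?_
    rw [h1]
    rfl
  · rw [Fintype.prod_bool, h2]
    have e1 : sg true = 1 := rfl
    have e2 : sg false = -1 := rfl
    rw [e1, e2, div_mul_div_comm]
    congr 1
    · simp only [Fin.val_last]
      ring
    · simp only [Fin.val_last]
      ring

/-- the effect of the step `t` -/
noncomputable def eff (θ : ℕ → ℝ) (g : Func) (t : ℕ) : ℝ :=
  ∑ ω : Cfg t, muT θ ω * ((∑ u : Bool → Node t, sg (u true).2 * sg (u false).2 * ev2 g ω u) /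
        (2 * ((t : ℝ) + 1)) ^ 2)

theorem diffT (hIA : StmIA) (hSNO : StmSNO) {t : ℕ} (g : Func) (hg : Good g)
    (θ : ℕ → ℝ) :
    ∑ ω : Cfg (t + 1), muT θ ω * ev g ω - ∑ ω : Cfg t, muT θ ω * ev (step g) ω =
      (- θ t ^ 2) * eff θ g t := by
  unfold eff
  rw [tel_sum_snoc, ← Finset.sum_sub_distrib, Finset.mul_sum]
  refine Finset.sum_congr rfl fun ω _ => ?_
  have h1 : ∀ z : Bool → Node t, muT θ (tsn ω z) * ev g (tsn ω z) =
      muT θ ω * (((1 + θ t * sg (z true).2) * (1 - θ t * sg (z false).2) /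
      (2 * ((t : ℝ) + 1)) ^ 2) * ev2 g ω z) := by
    intro z
    rw [muT_snoc, mul_assoc]
    congr 2
    exact hSNO g hg t ω z
  simp only [h1]
  rw [← Finset.mul_sum, tel_ev_step, ← mul_sub]
  have h2 : ∑ z : Bool → Node t, ((1 + θ t * sg (z true).2) * (1 - θ t * sg (z false).2) /
      (2 * ((t : ℝ) + 1)) ^ 2) * ev2 g ω z =
      (∑ z : Bool → Node t, ev2 g ω z +
        θ t * ∑ z : Bool → Node t, (sg (z true).2 - sg (z false).2) * ev2 g ω z +
        (- θ t ^ 2) * ∑ u : Bool → Node t, sg (u true).2 * sg (u false).2 * ev2 g ω u) /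
        (2 * ((t : ℝ) + 1)) ^ 2 := by
    rw [Finset.mul_sum, Finset.mul_sum, ← Finset.sum_add_distrib, ← Finset.sum_add_distrib,
      Finset.sum_div]
    exact Finset.sum_congr rfl fun z _ => by ring
  rw [h2, tel_lin hIA g hg]
  ring

/-- telescoping from the step `T` on -/
theorem telT (hIA : StmIA) (hSTP : StmSTP) (hSNO : StmSNO) (h : Func) (hh : Good h)
    (θ : ℕ → ℝ) {T m : ℕ} (hT : T ≤ m) :
    ∑ ω : Cfg m, muT θ ω * ev h ω - ∑ ω : Cfg T, muT θ ω * ev (step^[m - T] h) ω =
    ∑ t ∈ Finset.Ico T m, (- θ t ^ 2) * eff θ (step^[m - 1 - t] h) t := by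
  have h1 := Finset.sum_Ico_sub (fun t => ∑ ω : Cfg t, muT θ ω * ev (step^[m - t] h) ω) hT
  simp only [Nat.sub_self, Function.iterate_zero, id_eq] at h1
  rw [← h1]
  refine Finset.sum_congr rfl fun t ht => ?_
  have ht' := Finset.mem_Ico.1 ht
  have e1 : m - (t + 1) = m - 1 - t := by omega
  have e2 : m - t = (m - 1 - t) + 1 := by omega
  rw [e1, e2, Function.iterate_succ_apply']
  exact diffT hIA hSNO _ (tel_good_iter hSTP h hh _) θ

/-- the sequence stopped at `T` -/
def stop (θ : ℕ → ℝ) (T : ℕ) : ℕ → ℝ := fun k => if k < T then θ k else 0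

theorem tel_stop (hIA : StmIA) (hSTP : StmSTP) (hSNO : StmSNO) (h : Func) (hh : Good h)
    (θ : ℕ → ℝ) {T m : ℕ} (hT : T ≤ m) :
    ∑ ω : Cfg m, muT θ ω * ev h ω - ∑ ω : Cfg m, muT (stop θ T) ω * ev h ω =
    ∑ t ∈ Finset.Ico T m, (- θ t ^ 2) * eff θ (step^[m - 1 - t] h) t := by
  have k1 := telT hIA hSTP hSNO h hh θ hT
  have k0 := telT hIA hSTP hSNO h hh (stop θ T) hT
  have e0 : ∑ t ∈ Finset.Ico T m, (- stop θ T t ^ 2) * eff (stop θ T) (step^[m - 1 - t] h) t = 0 := by
    refine Finset.sum_eq_zero fun t ht => ?_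
    have : stop θ T t = 0 := if_neg (not_lt.2 (Finset.mem_Ico.1 ht).1)
    rw [this]
    simp
  have e1 : ∑ ω : Cfg T, muT (stop θ T) ω * ev (step^[m - T] h) ω =
      ∑ ω : Cfg T, muT θ ω * ev (step^[m - T] h) ω := by
    refine Finset.sum_congr rfl fun ω _ => ?_
    rw [muT_congr (θ := stop θ T) (θ' := θ) (fun k hk => if_pos hk)]
  rw [e0, e1] at k0
  rw [← k1]
  linarith

end Pool.Agent.Helper15.CT
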