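import Pool.Graph.R_pool_sql_team_seeded_47a924f7.T6.H1.CT.CONN
import Pool.Graph.R_pool_sql_team_seeded_47a924f7.T6.H1.CT.SEQ
import Pool.Agent.Helper15.CT.Base

/-! # The expected number of connected pairs, up to the percolation threshold -/

set_option autoImplicit false

namespace Pool.Agent.Helper15.CT

open Classical Pool.Agent.T6.H1.CT

/-- the weight -/
noncomputable def cw (a : ℕ) : ℝ := (Nat.centralBinom a : ℝ) / 4 ^ a

theorem cw_pos (a : ℕ) : 0 < cw a := by
  unfold cw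
  have : (0 : ℝ) < Nat.centralBinom a := by exact_mod_cast Nat.centralBinom_pos a
  positivity

theorem cw_succ (a : ℕ) : 2 * ((a : ℝ) + 1) * cw (a + 1) = (2 * (a : ℝ) + 1) * cw a := by
  unfold cw
  have h : ((a : ℝ) + 1) * (Nat.centralBinom (a + 1) : ℝ) =
      2 * (2 * (a : ℝ) + 1) * (Nat.centralBinom a : ℝ) := by
    exact_mod_cast Nat.succ_mul_centralBinom_succ a
  rw [pow_succ]
  have h4 : (4 : ℝ) ^ a ≠ 0 := by positivity
  field_simp
  linear_combination 2 * h

theorem cw_anti (a : ℕ) : cw (a + 1) ≤ cw a := by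
  have h := cw_succ a
  have h1 := cw_pos a
  have h2 := cw_pos (a + 1)
  have h3 : (0 : ℝ) ≤ a := Nat.cast_nonneg a
  by_contra hc
  push Not at hc
  nlinarith

theorem cw_antitone : Antitone cw := antitone_nat_of_succ_le cw_anti

theorem cw_low (n : ℕ) : ∑ a ∈ Finset.range n, cw a = 2 * (n : ℝ) * cw n := by
  induction n with
  | zero => simp
  | succ n ih =>
    rw [Finset.sum_range_succ, ih]
    push_cast
    have := cw_succ n
    linarith

theorem cw_high (s n : ℕ) (hn : s ≤ n) :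
    ∑ a ∈ Finset.Ico s n, cw (a + 1) / ((a : ℝ) + 1) ≤ 2 * (cw s - cw n) := by
  induction n, hn using Nat.le_induction with
  | base => simp
  | succ n hn ih =>
    rw [Finset.sum_Ico_succ_top hn]
    have h1 := cw_succ n
    have h2 := cw_anti n
    have h0 : (0 : ℝ) < (n : ℝ) + 1 := by positivity
    have h3 : cw (n + 1) / ((n : ℝ) + 1) ≤ 2 * (cw n - cw (n + 1)) := by
      rw [div_le_iff₀ h0]
      nlinarith
    linarith

theorem schT {Θ : ℝ} (h0 : 0 ≤ Θ) (t : ℕ) (s : Fin (t + 1)) :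
    ∑ a : Fin (t + 1), (if a = s then 0 else kap Θ s.val a.val) * cw a.val ≤
      8 * Θ * cw s.val := by
  obtain ⟨s, hs⟩ := s
  have hconv : ∑ a : Fin (t + 1), (if a = (⟨s, hs⟩ : Fin (t + 1)) then (0 : ℝ) else
      kap Θ s a.val) * cw a.val =
      ∑ a ∈ Finset.range (t + 1), (if a = s then (0 : ℝ) else kap Θ s a) * cw a := by
    rw [← Fin.sum_univ_eq_sum_range (fun a => (if a = s then (0 : ℝ) else
      kap Θ s a) * cw a)]
    refine Finset.sum_congr rfl fun a _ => ?_
    by_cases ha : a.val = s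
    · have : a = (⟨s, hs⟩ : Fin (t + 1)) := Fin.ext ha
      rw [if_pos this, if_pos ha]
    · have : a ≠ (⟨s, hs⟩ : Fin (t + 1)) := fun h => ha (congrArg Fin.val h)
      rw [if_neg this, if_neg ha]
  show ∑ a : Fin (t + 1), (if a = (⟨s, hs⟩ : Fin (t + 1)) then (0 : ℝ) else
      kap Θ s a.val) * cw a.val ≤ 8 * Θ * cw s
  rw [hconv, Finset.range_eq_Ico,
    ← Finset.sum_Ico_consecutive _ (Nat.zero_le (s + 1)) (by omega : s + 1 ≤ t + 1),
    Finset.sum_Ico_succ_top (Nat.zero_le s), if_pos rfl, zero_mul, add_zero]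
  have hcs := cw_pos s
  have hfirst : ∑ a ∈ Finset.Ico 0 s, (if a = s then (0 : ℝ) else kap Θ s a) * cw a ≤
      4 * Θ * cw s := by
    rcases Nat.eq_zero_or_pos s with hz | hz
    · subst hz
      simp
      positivity
    · have hsr : (0 : ℝ) < s := by exact_mod_cast hz
      have e1 : ∑ a ∈ Finset.Ico 0 s, (if a = s then (0 : ℝ) else kap Θ s a) * cw a =
          (2 * Θ / s) * ∑ a ∈ Finset.range s, cw a := by
        rw [Finset.mul_sum, ← Finset.range_eq_Ico]
        refine Finset.sum_congr rfl fun a ha => ?_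
        have hlt := Finset.mem_range.mp ha
        rw [if_neg (by omega)]
        unfold kap
        rw [max_eq_left hlt.le]
      rw [e1, cw_low]
      apply le_of_eq
      field_simp
      ring
  have hsecond : ∑ a ∈ Finset.Ico (s + 1) (t + 1), (if a = s then (0 : ℝ) else
      kap Θ s a) * cw a ≤ 4 * Θ * cw s := by
    rw [← Finset.sum_Ico_add' (fun a => (if a = s then (0 : ℝ) else kap Θ s a) * cw a) s t 1]
    have e1 : ∑ a ∈ Finset.Ico s t, (if a + 1 = s then (0 : ℝ) else kap Θ s (a + 1)) * cw (a + 1) =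
        (2 * Θ) * ∑ a ∈ Finset.Ico s t, cw (a + 1) / ((a : ℝ) + 1) := by
      rw [Finset.mul_sum]
      refine Finset.sum_congr rfl fun a ha => ?_
      have hlt := Finset.mem_Ico.mp ha
      rw [if_neg (by omega)]
      unfold kap
      rw [max_eq_right (by omega)]
      push_cast
      ring
    rw [e1]
    have e2 := cw_high s t (by omega)
    have e3 := cw_pos t
    have e5 := mul_le_mul_of_nonneg_left e2 (show 0 ≤ 2 * Θ by linarith)
    refine le_trans e5 ?_
    nlinarith
  linarith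

/-! ## connected pairs -/

/-- the expectation -/
noncomputable def EE (θ : ℕ → ℝ) (t : ℕ) (F : Cfg t → (Fin t → Bool → Bool) → ℝ) : ℝ :=
  ∑ ω : Cfg t, ∑ b : Fin t → Bool → Bool, nuT θ ω b * F ω b

theorem EE_sum (θ : ℕ → ℝ) (t : ℕ) {ι : Type} (s : Finset ι)
    (F : ι → Cfg t → (Fin t → Bool → Bool) → ℝ) :
    EE θ t (fun ω b => ∑ i ∈ s, F i ω b) = ∑ i ∈ s, EE θ t (F i) := by
  unfold EE
  simp_rw [Finset.mul_sum]
  rw [Finset.sum_comm (s := s)]
  refine Finset.sum_congr rfl fun ω _ => ?_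
  rw [Finset.sum_comm]

theorem EE_mono {θ : ℕ → ℝ} {t : ℕ}
    (hnu : ∀ (ω : Cfg t) (b : Fin t → Bool → Bool), 0 ≤ nuT θ ω b)
    {F G : Cfg t → (Fin t → Bool → Bool) → ℝ} (h : ∀ ω b, F ω b ≤ G ω b) :
    EE θ t F ≤ EE θ t G := by
  unfold EE
  exact Finset.sum_le_sum fun ω _ => Finset.sum_le_sum fun b _ =>
    mul_le_mul_of_nonneg_left (h ω b) (hnu ω b)

theorem EE_mul (θ : ℕ → ℝ) (t : ℕ) (c : ℝ) (F : Cfg t → (Fin t → Bool → Bool) → ℝ) :
    EE θ t (fun ω b => c * F ω b) = c * EE θ t F := by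
  unfold EE
  rw [Finset.mul_sum]
  refine Finset.sum_congr rfl fun ω _ => ?_
  rw [Finset.mul_sum]
  refine Finset.sum_congr rfl fun b _ => ?_
  ring

/-- the weight -/
noncomputable def wt {t : ℕ} (a : Fin (t + 1)) : ℝ := cw a.val

theorem wt_pos {t : ℕ} (a : Fin (t + 1)) : 0 < wt a := cw_pos _

theorem one_le {t : ℕ} (a : Fin (t + 1)) : 1 ≤ (cw t)⁻¹ * wt a := by
  unfold wt
  rw [inv_mul_eq_div, le_div_iff₀ (cw_pos t), one_mul]
  exact cw_antitone (Nat.lt_succ_iff.1 a.isLt)

open ModCON in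
theorem reach_bound {t : ℕ} (ω : Cfg t) (b : Fin t → Bool → Bool) (a : Fin (t + 1)) :
    ∑ a' : Fin (t + 1), (if (og ω b).Reachable a a' then (1 : ℝ) else 0) ≤
      (cw t)⁻¹ * ∑ r ∈ Finset.range (t + 1), ∑ p : Fin (r + 1) → Fin (t + 1),
        (if Function.Injective p ∧ p 0 = a then CT.wt (p (Fin.last r)) else 0) * op ω b r p := by
  have hct : 0 ≤ (cw t)⁻¹ := inv_nonneg.2 (cw_pos t).le
  have h1 : ∀ a' : Fin (t + 1), (if (og ω b).Reachable a a' then (1 : ℝ) else 0) ≤
      (cw t)⁻¹ * ∑ r ∈ Finset.range (t + 1), ∑ p : Fin (r + 1) → Fin (t + 1),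
        (if a' = p (Fin.last r) then
          (if Function.Injective p ∧ p 0 = a then CT.wt (p (Fin.last r)) else 0) * op ω b r p
          else 0) := by
    intro a'
    have hnn : ∀ (r : ℕ) (p : Fin (r + 1) → Fin (t + 1)), 0 ≤ (if a' = p (Fin.last r) then
          (if Function.Injective p ∧ p 0 = a then CT.wt (p (Fin.last r)) else 0) * op ω b r p
          else 0) := by
      intro r p
      split_ifs
      · exact mul_nonneg (CT.wt_pos _).le (op_nonneg _ _ _ _)
      · simp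
      · exact le_refl _
    split_ifs with h
    · obtain ⟨r, hr, p, hp1, hp2, hp3, hp4⟩ := exists_path ω b a a' h
      have h2 : CT.wt a' ≤ ∑ r ∈ Finset.range (t + 1), ∑ p : Fin (r + 1) → Fin (t + 1),
          (if a' = p (Fin.last r) then
            (if Function.Injective p ∧ p 0 = a then CT.wt (p (Fin.last r)) else 0) * op ω b r p
            else 0) := by
        refine le_trans ?_ (Finset.single_le_sum (f := fun r : ℕ =>
          ∑ p : Fin (r + 1) → Fin (t + 1), (if a' = p (Fin.last r) then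
            (if Function.Injective p ∧ p 0 = a then CT.wt (p (Fin.last r)) else 0) * op ω b r p
            else 0)) (fun r _ => Finset.sum_nonneg fun p _ => hnn r p) hr)
        refine le_trans ?_ (Finset.single_le_sum (f := fun p : Fin (r + 1) → Fin (t + 1) =>
          (if a' = p (Fin.last r) then
            (if Function.Injective p ∧ p 0 = a then CT.wt (p (Fin.last r)) else 0) * op ω b r p
            else 0)) (fun p _ => hnn r p) (Finset.mem_univ p))
        rw [if_pos hp3.symm, if_pos ⟨hp1, hp2⟩, hp4, mul_one, hp3]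
      exact (CT.one_le a').trans (mul_le_mul_of_nonneg_left h2 hct)
    · exact mul_nonneg hct
        (Finset.sum_nonneg fun r _ => Finset.sum_nonneg fun p _ => hnn r p)
  refine (Finset.sum_le_sum fun a' _ => h1 a').trans (le_of_eq ?_)
  rw [← Finset.mul_sum, Finset.sum_comm]
  congr 1
  refine Finset.sum_congr rfl fun r _ => ?_
  rw [Finset.sum_comm]
  refine Finset.sum_congr rfl fun p _ => ?_
  rw [Finset.sum_ite_eq' Finset.univ (p (Fin.last r))]
  simp

theorem geom_le {l : ℝ} (h0 : 0 ≤ l) (h1 : l < 1) (n : ℕ) :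
    ∑ r ∈ Finset.range n, l ^ r ≤ (1 - l)⁻¹ := by
  have h2 : 0 < 1 - l := by linarith
  rw [← one_div, le_div_iff₀ h2]
  have h3 := geom_sum_mul l n
  have h4 : 0 ≤ l ^ n := pow_nonneg h0 n
  nlinarith

theorem conT {θ : ℕ → ℝ} {Θ : ℝ} (h0 : ∀ k, 0 ≤ θ k) (hΘ : ∀ k, θ k ≤ Θ) (h1 : Θ < 1 / 8)
    (t : ℕ) :
    ∑ ω : Cfg t, ∑ b : Fin t → Bool → Bool, nuT θ ω b *
      ∑ a : Fin (t + 1), ∑ a' : Fin (t + 1), (if (og ω b).Reachable a a' then (1 : ℝ) else 0) ≤
    2 * (1 - 8 * Θ)⁻¹ * ((t : ℝ) + 1) := by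
  have hΘ0 : 0 ≤ Θ := (h0 0).trans (hΘ 0)
  have h1' : ∀ k, θ k ≤ 1 := fun k => (hΘ k).trans (by linarith)
  have hnu : ∀ (ω : Cfg t) (b : Fin t → Bool → Bool), 0 ≤ nuT θ ω b := nuT_nonneg h0 h1'
  have hct : 0 ≤ (cw t)⁻¹ := inv_nonneg.2 (cw_pos t).le
  change EE θ t (fun ω b => ∑ a : Fin (t + 1), ∑ a' : Fin (t + 1),
    (if (og ω b).Reachable a a' then (1 : ℝ) else 0)) ≤ _
  have e1 : EE θ t (fun ω b => ∑ a : Fin (t + 1), ∑ a' : Fin (t + 1),
      (if (og ω b).Reachable a a' then (1 : ℝ) else 0)) ≤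
      EE θ t (fun ω b => ∑ a : Fin (t + 1), (cw t)⁻¹ *
        ∑ r ∈ Finset.range (t + 1), ∑ p : Fin (r + 1) → Fin (t + 1),
        (if Function.Injective p ∧ p 0 = a then wt (p (Fin.last r)) else 0) *
          ModCON.op ω b r p) :=
    EE_mono hnu fun ω b => Finset.sum_le_sum fun a _ => reach_bound ω b a
  refine e1.trans ?_
  rw [EE_sum θ t Finset.univ (fun a ω b => (cw t)⁻¹ *
        ∑ r ∈ Finset.range (t + 1), ∑ p : Fin (r + 1) → Fin (t + 1),
        (if Function.Injective p ∧ p 0 = a then wt (p (Fin.last r)) else 0) *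
          ModCON.op ω b r p)]
  -- the kernel
  set K : Fin (t + 1) → Fin (t + 1) → ℝ := fun s a => if a = s then 0 else kap Θ s.val a.val
    with hK
  have hkap : ∀ s a : ℕ, 0 ≤ kap Θ s a := fun s a => by
    unfold kap
    positivity
  have hK0 : ∀ s a, 0 ≤ K s a := fun s a => by
    simp only [hK]
    split_ifs
    · exact le_refl _
    · exact hkap _ _
  have hSc : ∀ s, ∑ a, K s a * wt a ≤ 8 * Θ * wt s := fun s => schT hΘ0 t s
  have hbd : ∀ a : Fin (t + 1), EE θ t (fun ω b => (cw t)⁻¹ *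
        ∑ r ∈ Finset.range (t + 1), ∑ p : Fin (r + 1) → Fin (t + 1),
        (if Function.Injective p ∧ p 0 = a then wt (p (Fin.last r)) else 0) *
          ModCON.op ω b r p) ≤
      (cw t)⁻¹ * ((1 - 8 * Θ)⁻¹ * wt a) := by
    intro a
    rw [EE_mul θ t ((cw t)⁻¹) (fun ω b =>
      ∑ r ∈ Finset.range (t + 1), ∑ p : Fin (r + 1) → Fin (t + 1),
        (if Function.Injective p ∧ p 0 = a then wt (p (Fin.last r)) else 0) *
          ModCON.op ω b r p)]
    refine mul_le_mul_of_nonneg_left ?_ hct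
    rw [EE_sum θ t (Finset.range (t + 1)) (fun r ω b => ∑ p : Fin (r + 1) → Fin (t + 1),
        (if Function.Injective p ∧ p 0 = a then wt (p (Fin.last r)) else 0) *
          ModCON.op ω b r p)]
    have hr : ∀ r ∈ Finset.range (t + 1), EE θ t (fun ω b => ∑ p : Fin (r + 1) → Fin (t + 1),
        (if Function.Injective p ∧ p 0 = a then wt (p (Fin.last r)) else 0) *
          ModCON.op ω b r p) ≤
        (8 * Θ) ^ r * wt a := by
      intro r _
      rw [EE_sum θ t Finset.univ (fun (p : Fin (r + 1) → Fin (t + 1)) ω b =>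
        (if Function.Injective p ∧ p 0 = a then wt (p (Fin.last r)) else 0) *
          ModCON.op ω b r p)]
      refine le_trans (Finset.sum_le_sum fun p _ => ?_)
        (tSEQ (Fin (t + 1)) K wt (8 * Θ) hK0 (fun a => (wt_pos a).le) (by positivity) hSc r a)
      rw [EE_mul θ t (if Function.Injective p ∧ p 0 = a then wt (p (Fin.last r)) else 0)
        (fun ω b => ModCON.op ω b r p)]
      by_cases hc : Function.Injective p ∧ p 0 = a
      · rw [if_pos hc, if_pos hc.2, mul_comm]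
        refine mul_le_mul_of_nonneg_right ?_ (wt_pos _).le
        refine (pthT h0 h1' Θ hΘ t r p hc.1).trans (le_of_eq ?_)
        refine Finset.prod_congr rfl fun i _ => ?_
        simp only [hK]
        rw [if_neg]
        intro h
        have := hc.1 h
        exact absurd this (Fin.castSucc_lt_succ (i := i)).ne'
      · rw [if_neg hc, zero_mul]
        split_ifs
        · exact mul_nonneg (Finset.prod_nonneg fun i _ => hK0 _ _) (wt_pos _).le
        · exact le_refl _
    refine (Finset.sum_le_sum hr).trans ?_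
    rw [← Finset.sum_mul]
    exact mul_le_mul_of_nonneg_right (geom_le (by positivity) (by linarith) _) (wt_pos _).le
  refine (Finset.sum_le_sum fun a _ => hbd a).trans ?_
  rw [← Finset.mul_sum, ← Finset.mul_sum]
  have hw : ∑ a : Fin (t + 1), wt a ≤ 2 * ((t : ℝ) + 1) * cw t := by
    have h := cw_low (t + 1)
    rw [← Fin.sum_univ_eq_sum_range (fun i => cw i)] at h
    have h2 := cw_anti t
    push_cast at h
    change ∑ a : Fin (t + 1), cw a.val ≤ _
    rw [h]
    have : (0 : ℝ) ≤ 2 * ((t : ℝ) + 1) := by positivity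
    exact mul_le_mul_of_nonneg_left h2 this
  have hM : 0 ≤ (1 - 8 * Θ)⁻¹ := inv_nonneg.2 (by linarith)
  calc (cw t)⁻¹ * ((1 - 8 * Θ)⁻¹ * ∑ a : Fin (t + 1), wt a)
      ≤ (cw t)⁻¹ * ((1 - 8 * Θ)⁻¹ * (2 * ((t : ℝ) + 1) * cw t)) :=
        mul_le_mul_of_nonneg_left (mul_le_mul_of_nonneg_left hw hM) hct
    _ = 2 * (1 - 8 * Θ)⁻¹ * ((t : ℝ) + 1) := by
        have := (cw_pos t).ne'
        field_simp

end Pool.Agent.Helper15.CT
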