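import Pool.Graph.R_pool_sql_team_seeded_47a924f7.T6.H1.CT.ONE
import Pool.Graph.R_pool_sql_team_seeded_47a924f7.T6.H1.CT.NUM
import Pool.Graph.R_pool_sql_team_seeded_47a924f7.T6.H1.CT.MAIN
import Pool.Graph.R_pool_sql_team_seeded_47a924f7.T6.H1.CT.IA
import Pool.Graph.R_pool_sql_team_seeded_47a924f7.T6.H1.CT.STP
import Pool.Graph.R_pool_sql_team_seeded_47a924f7.T6.H1.CT.SNO
import Pool.Graph.R_pool_sql_team_seeded_47a924f7.T6.H1.CT.HID
import Pool.Graph.R_pool_sql_team_seeded_47a924f7.T6.H1.CT.UNR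
import Pool.Graph.R_pool_sql_team_seeded_47a924f7.T6.H1.CT.SPL
import Pool.Graph.R_pool_sql_team_seeded_47a924f7.T6.H1.CT.SYM
import Pool.Graph.R_pool_sql_team_seeded_47a924f7.T6.H1.CT.VAR
import Pool.Graph.R_pool_sql_team_seeded_47a924f7.T6.H1.CT.PAT
import Pool.Agent.Helper15.CT.Conn

/-! # The effect of one step, and the tail sums -/

set_option autoImplicit false

namespace Pool.Agent.Helper15.CT

open Classical Pool.Agent.T6.H1.CT

theorem hSTP : StmSTP := tSTP tIA

theorem hHID : StmHID := tHID (tUNR tIA hSTP) tSPL (tSYM tIA) tVAR tPAT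

theorem oneT {θ : ℕ → ℝ} {Θ : ℝ} (h0 : ∀ k, 0 ≤ θ k) (hΘ : ∀ k, θ k ≤ Θ) (h1 : Θ < 1 / 8)
    (h : Func) (hh : Good h) (m t : ℕ) (htm : t < m) :
    |eff θ (step^[m - 1 - t] h) t| ≤ (1 - 8 * Θ)⁻¹ * bd m t := by
  have hΘ0 : 0 ≤ Θ := (h0 0).trans (hΘ 0)
  have h1' : ∀ k, θ k ≤ 1 := fun k => (hΘ k).trans (by linarith)
  set M : ℝ := (1 - 8 * Θ)⁻¹ with hM
  have hM1 : 1 ≤ M := by
    rw [hM]
    exact (one_le_inv₀ (by linarith)).2 (by linarith)
  have hM0 : 0 ≤ M := by linarith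
  set g : Func := step^[m - 1 - t] h with hg
  have hgood : Good g := good_iter hSTP h hh _
  have hnn : ∀ (ω : Cfg t) (b : Fin t → Bool → Bool), 0 ≤ nuT θ ω b := nuT_nonneg h0 h1'
  have hsum := nuT_sum θ t
  -- rewriting
  have hQ : eff θ g t =
      ∑ ω : Cfg t, ∑ b : Fin t → Bool → Bool, nuT θ ω b *
        ((∑ u : Bool → Node t, ck ω b (u true) (u false) * ev2 g ω u) /
          (Fintype.card (Node t) : ℝ) ^ 2) := by
    unfold eff
    rw [card_node]
    have := gauT tIA g hgood θ t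
    calc _ = (∑ ω : Cfg t, muT θ ω *
        ∑ u : Bool → Node t, sg (u true).2 * sg (u false).2 * ev2 g ω u) /
          (2 * ((t : ℝ) + 1)) ^ 2 := by
          rw [Finset.sum_div]
          exact Finset.sum_congr rfl fun ω _ => (mul_div_assoc _ _ _).symm
      _ = _ := by
          rw [this, Finset.sum_div]
          refine Finset.sum_congr rfl fun ω _ => ?_
          rw [Finset.sum_div]
          exact Finset.sum_congr rfl fun b _ => mul_div_assoc _ _ _
  rw [hQ]
  -- mean of msq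
  have hmean : ∑ ω : Cfg t, ∑ b : Fin t → Bool → Bool, nuT θ ω b * msq (ck ω b) ≤
      4 * M / ((t : ℝ) + 1) := by
    have hc := conT h0 hΘ h1 t
    have : ∑ ω : Cfg t, ∑ b : Fin t → Bool → Bool, nuT θ ω b * msq (ck ω b) =
        (∑ ω : Cfg t, ∑ b : Fin t → Bool → Bool, nuT θ ω b *
          ∑ a : Fin (t + 1), ∑ a' : Fin (t + 1),
            (if (og ω b).Reachable a a' then (1 : ℝ) else 0)) / ((t : ℝ) + 1) ^ 2 := by
      rw [Finset.sum_div]
      refine Finset.sum_congr rfl fun ω _ => ?_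
      rw [Finset.sum_div]
      refine Finset.sum_congr rfl fun b _ => ?_
      rw [msq_ck, mul_div_assoc]
    rw [this]
    have ht : (0 : ℝ) < (t : ℝ) + 1 := by positivity
    calc _ ≤ 2 * M * ((t : ℝ) + 1) / ((t : ℝ) + 1) ^ 2 :=
          div_le_div_of_nonneg_right hc (by positivity)
      _ ≤ 4 * M * ((t : ℝ) + 1) / ((t : ℝ) + 1) ^ 2 := by
          apply div_le_div_of_nonneg_right _ (by positivity)
          nlinarith [mul_nonneg hM0 ht.le]
      _ = 4 * M / ((t : ℝ) + 1) := by field_simp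
  have hev : ∀ (ω : Cfg t) (u : Bool → Node t), 0 ≤ ev2 g ω u ∧ ev2 g ω u ≤ 1 :=
    fun ω u => hgood.1 _ _ _
  have habs : |∑ ω : Cfg t, ∑ b : Fin t → Bool → Bool, nuT θ ω b *
        ((∑ u : Bool → Node t, ck ω b (u true) (u false) * ev2 g ω u) /
          (Fintype.card (Node t) : ℝ) ^ 2)| ≤
      ∑ ω : Cfg t, ∑ b : Fin t → Bool → Bool, nuT θ ω b *
        |(∑ u : Bool → Node t, ck ω b (u true) (u false) * ev2 g ω u) /
          (Fintype.card (Node t) : ℝ) ^ 2| := by
    refine (Finset.abs_sum_le_sum_abs _ _).trans (Finset.sum_le_sum fun ω _ => ?_)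
    refine (Finset.abs_sum_le_sum_abs _ _).trans (Finset.sum_le_sum fun b _ => ?_)
    rw [abs_mul, abs_of_nonneg (hnn ω b)]
  refine habs.trans ?_
  unfold bd
  split_ifs with hj
  · -- hiding
    set j := js t with hjdef
    have hj1 : 1 ≤ j := js_pos t
    have hsplit : g = step^[j] (step^[m - 1 - t - j] h) := by
      rw [hg, ← Function.iterate_add_apply]
      congr 1
      omega
    have hgood' : Good (step^[m - 1 - t - j] h) := good_iter hSTP h hh _
    have hN : (0 : ℝ) < (t : ℝ) + 1 := by positivity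
    have hjR : (0 : ℝ) < (j : ℝ) := by exact_mod_cast hj1
    set A : ℝ := (j : ℝ) * ((j : ℝ) + 1) with hA
    have hApos : 0 < A := by positivity
    have hin : ∀ (ω : Cfg t) (b : Fin t → Bool → Bool),
        |(∑ u : Bool → Node t, ck ω b (u true) (u false) * ev2 g ω u) /
          (Fintype.card (Node t) : ℝ) ^ 2| ≤
        Real.sqrt (2 * msq (ck ω b) / A) + 12 * (j : ℝ) / (2 * ((t : ℝ) + 1)) * msq (ck ω b) := by
      intro ω b
      have := hHID (step^[m - 1 - t - j] h) hgood' (Node t) (tree ω) (rt t) (ck ω b)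
        (ck_ker ω b) j hj1
      rw [← hsplit] at this
      have h2 := this
      rw [← card_node]
      exact h2
    calc ∑ ω : Cfg t, ∑ b : Fin t → Bool → Bool, nuT θ ω b *
        |(∑ u : Bool → Node t, ck ω b (u true) (u false) * ev2 g ω u) /
          (Fintype.card (Node t) : ℝ) ^ 2|
        ≤ ∑ ω : Cfg t, ∑ b : Fin t → Bool → Bool, (nuT θ ω b * Real.sqrt (2 * msq (ck ω b) / A) +
          12 * (j : ℝ) / (2 * ((t : ℝ) + 1)) * (nuT θ ω b * msq (ck ω b))) := by
          refine Finset.sum_le_sum fun ω _ => Finset.sum_le_sum fun b _ => ?_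
          calc _ ≤ nuT θ ω b * (Real.sqrt (2 * msq (ck ω b) / A) +
              12 * (j : ℝ) / (2 * ((t : ℝ) + 1)) * msq (ck ω b)) :=
                mul_le_mul_of_nonneg_left (hin ω b) (hnn ω b)
            _ = _ := by ring
      _ = ∑ ω : Cfg t, ∑ b : Fin t → Bool → Bool, nuT θ ω b * Real.sqrt (2 * msq (ck ω b) / A) +
          12 * (j : ℝ) / (2 * ((t : ℝ) + 1)) *
            ∑ ω : Cfg t, ∑ b : Fin t → Bool → Bool, nuT θ ω b * msq (ck ω b) := by
          simp only [Finset.sum_add_distrib, Finset.mul_sum]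
      _ ≤ Real.sqrt (M ^ 2 * (8 / (((t : ℝ) + 1) * A))) +
            12 * (j : ℝ) / (2 * ((t : ℝ) + 1)) * (4 * M / ((t : ℝ) + 1)) := by
          refine add_le_add ?_ (mul_le_mul_of_nonneg_left hmean (by positivity))
          -- Cauchy-Schwarz
          have hcs : (∑ x : Cfg t × (Fin t → Bool → Bool),
              Real.sqrt (nuT θ x.1 x.2) * Real.sqrt (nuT θ x.1 x.2 * (2 * msq (ck x.1 x.2) / A))) ^ 2
              ≤ (∑ x : Cfg t × (Fin t → Bool → Bool), Real.sqrt (nuT θ x.1 x.2) ^ 2) *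
              ∑ x : Cfg t × (Fin t → Bool → Bool),
                Real.sqrt (nuT θ x.1 x.2 * (2 * msq (ck x.1 x.2) / A)) ^ 2 :=
            Finset.sum_mul_sq_le_sq_mul_sq _ _ _
          have hterm : ∀ (ω : Cfg t) (b : Fin t → Bool → Bool),
              0 ≤ nuT θ ω b * (2 * msq (ck ω b) / A) := fun ω b =>
            mul_nonneg (hnn ω b) (div_nonneg (mul_nonneg (by norm_num) (msq_nonneg _)) hApos.le)
          have e1 : ∑ x : Cfg t × (Fin t → Bool → Bool), Real.sqrt (nuT θ x.1 x.2) ^ 2 = 1 := by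
            rw [Fintype.sum_prod_type, ← hsum]
            exact Finset.sum_congr rfl fun ω _ => Finset.sum_congr rfl fun b _ =>
              Real.sq_sqrt (hnn ω b)
          have e2 : ∑ x : Cfg t × (Fin t → Bool → Bool),
                Real.sqrt (nuT θ x.1 x.2 * (2 * msq (ck x.1 x.2) / A)) ^ 2 =
              2 / A * ∑ ω : Cfg t, ∑ b : Fin t → Bool → Bool, nuT θ ω b * msq (ck ω b) := by
            rw [Fintype.sum_prod_type, Finset.mul_sum]
            refine Finset.sum_congr rfl fun ω _ => ?_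
            rw [Finset.mul_sum]
            refine Finset.sum_congr rfl fun b _ => ?_
            rw [Real.sq_sqrt (hterm ω b)]
            ring
          have e3 : ∑ x : Cfg t × (Fin t → Bool → Bool),
              Real.sqrt (nuT θ x.1 x.2) * Real.sqrt (nuT θ x.1 x.2 * (2 * msq (ck x.1 x.2) / A)) =
              ∑ ω : Cfg t, ∑ b : Fin t → Bool → Bool,
                nuT θ ω b * Real.sqrt (2 * msq (ck ω b) / A) := by
            rw [Fintype.sum_prod_type]
            refine Finset.sum_congr rfl fun ω _ => Finset.sum_congr rfl fun b _ => ?_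
            rw [Real.sqrt_mul (hnn ω b), ← mul_assoc, Real.mul_self_sqrt (hnn ω b)]
          rw [e1, e2, e3, one_mul] at hcs
          apply Real.le_sqrt_of_sq_le
          refine hcs.trans ?_
          calc 2 / A * ∑ ω : Cfg t, ∑ b : Fin t → Bool → Bool, nuT θ ω b * msq (ck ω b)
              ≤ 2 / A * (4 * M / ((t : ℝ) + 1)) := mul_le_mul_of_nonneg_left hmean (by positivity)
            _ = M * (8 / (((t : ℝ) + 1) * A)) := by field_simp; ring
            _ ≤ M ^ 2 * (8 / (((t : ℝ) + 1) * A)) := by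
                apply mul_le_mul_of_nonneg_right _ (by positivity)
                nlinarith
      _ = M * (Real.sqrt (8 / (((t : ℝ) + 1) * ((j : ℝ) * ((j : ℝ) + 1)))) +
          24 * (j : ℝ) / ((t : ℝ) + 1) ^ 2) := by
          rw [Real.sqrt_mul (sq_nonneg M), Real.sqrt_sq hM0, hA, mul_add]
          ring_nf
          field_simp
          ring
  · refine le_trans ?_ (hmean.trans (le_of_eq (by ring)))
    refine Finset.sum_le_sum fun ω _ => Finset.sum_le_sum fun b _ => ?_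
    exact mul_le_mul_of_nonneg_left (triv _ (ck_ker ω b) _ (hev ω)) (hnn ω b)

/-! ## Tail sums -/

theorem bd_nonneg (m t : ℕ) : 0 ≤ bd m t := by
  unfold bd
  split_ifs <;> positivity

theorem second_tail (T m : ℕ) (hT : 16 ≤ T) (hTm : T ≤ m) :
    ∑ t ∈ Finset.Ico T m, (if js t + t + 1 ≤ m then 0 else 4 / ((t : ℝ) + 1)) ≤
      8 / (Nat.sqrt (Nat.sqrt T) : ℝ) := by
  have hm : 16 ≤ m := hT.trans hTm
  obtain ⟨r1, r2, r3⟩ := num_sq m (by omega)
  set r : ℕ := Nat.sqrt (Nat.sqrt m) with hr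
  have hr2 : 2 ≤ r := by
    by_contra hc
    have : r = 1 := by omega
    rw [this] at r3
    norm_num at r3
    omega
  have hTr : Nat.sqrt (Nat.sqrt T) ≤ r := Nat.sqrt_le_sqrt (Nat.sqrt_le_sqrt hTm)
  have hT1 : 1 ≤ Nat.sqrt (Nat.sqrt T) := (num_sq T (by omega)).1
  have hrR : (2 : ℝ) ≤ (r : ℝ) := by exact_mod_cast hr2
  have hjs : ∀ t, t < m → js t ≤ r ^ 3 := by
    intro t ht
    unfold js
    exact Nat.pow_le_pow_left (Nat.sqrt_le_sqrt (Nat.sqrt_le_sqrt (by omega))) 3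
  rw [Finset.sum_ite, Finset.sum_const_zero, zero_add]
  have p3 : (0 : ℝ) < (r : ℝ) ^ 3 * ((r : ℝ) - 1) := by
    have : (0 : ℝ) < (r : ℝ) - 1 := by linarith
    positivity
  have h1 : ∀ t ∈ (Finset.Ico T m).filter (fun t => ¬ (js t + t + 1 ≤ m)),
      4 / ((t : ℝ) + 1) ≤ 4 / ((r : ℝ) ^ 3 * ((r : ℝ) - 1)) := by
    intro t ht
    rw [Finset.mem_filter, Finset.mem_Ico] at ht
    have h2 := hjs t ht.1.2
    have h3 : m ≤ t + r ^ 3 := by omega
    have h4 : r ^ 4 ≤ t + 1 + r ^ 3 := by omega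
    have h5 : (r : ℝ) ^ 4 ≤ (t : ℝ) + 1 + (r : ℝ) ^ 3 := by exact_mod_cast h4
    refine div_le_div_of_nonneg_left (by norm_num) p3 ?_
    nlinarith
  refine (Finset.sum_le_sum h1).trans ?_
  rw [Finset.sum_const, nsmul_eq_mul]
  have hcard : ((Finset.Ico T m).filter (fun t => ¬ (js t + t + 1 ≤ m))).card ≤ r ^ 3 := by
    have hsub : (Finset.Ico T m).filter (fun t => ¬ (js t + t + 1 ≤ m)) ⊆
        Finset.Ico (m - r ^ 3) m := by
      intro t ht
      rw [Finset.mem_filter, Finset.mem_Ico] at ht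
      rw [Finset.mem_Ico]
      have h2 := hjs t ht.1.2
      omega
    refine (Finset.card_le_card hsub).trans ?_
    rw [Nat.card_Ico]
    omega
  have hcard' : ((((Finset.Ico T m).filter (fun t => ¬ (js t + t + 1 ≤ m))).card : ℕ) : ℝ) ≤
      (r : ℝ) ^ 3 := by exact_mod_cast hcard
  have hr1 : (0 : ℝ) < (r : ℝ) - 1 := by linarith
  calc _ ≤ (r : ℝ) ^ 3 * (4 / ((r : ℝ) ^ 3 * ((r : ℝ) - 1))) :=
        mul_le_mul_of_nonneg_right hcard' (by positivity)
    _ = 4 / ((r : ℝ) - 1) := by field_simp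
    _ ≤ 8 / (r : ℝ) := by
        rw [div_le_div_iff₀ hr1 (by linarith)]
        linarith
    _ ≤ 8 / (Nat.sqrt (Nat.sqrt T) : ℝ) := by
        apply div_le_div_of_nonneg_left (by norm_num)
        · exact_mod_cast hT1
        · exact_mod_cast hTr

theorem tail (ε : ℝ) (hε : 0 < ε) : ∃ T : ℕ, ∀ m : ℕ, T ≤ m →
    ∑ t ∈ Finset.Ico T m, bd m t ≤ ε := by
  set f : ℕ → ℝ := fun t => 864 * (1 / ((t + 1 : ℕ) : ℝ) ^ (5 / 4 : ℝ)) with hf
  have hsum : Summable f :=
    ((summable_nat_add_iff 1 (f := fun n : ℕ => 1 / ((n : ℕ) : ℝ) ^ (5 / 4 : ℝ))).2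
      (Real.summable_one_div_nat_rpow.2 (by norm_num))).mul_left 864
  have hf0 : ∀ t, 0 ≤ f t := fun t => by
    simp only [hf]
    positivity
  have htail : Filter.Tendsto (fun T => ∑' k, f (k + T)) Filter.atTop (nhds 0) :=
    tendsto_sum_nat_add f
  obtain ⟨T₁, hT₁⟩ := Filter.eventually_atTop.1
    (htail.eventually (gt_mem_nhds (show (0 : ℝ) < ε / 2 by positivity)))
  obtain ⟨N, hN⟩ := exists_nat_gt (16 / ε)
  refine ⟨max T₁ (max 16 (N ^ 4)), fun m hm => ?_⟩
  set T := max T₁ (max 16 (N ^ 4)) with hT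
  have hT1 : T₁ ≤ T := le_max_left _ _
  have hT16 : 16 ≤ T := (le_max_left _ _).trans (le_max_right _ _)
  have hTN : N ^ 4 ≤ T := (le_max_right _ _).trans (le_max_right _ _)
  have h1 : ∀ t ∈ Finset.Ico T m, bd m t ≤ f t +
      (if js t + t + 1 ≤ m then 0 else 4 / ((t : ℝ) + 1)) := by
    intro t _
    have hb : bd m t = if js t + t + 1 ≤ m then nb t else 4 / ((t : ℝ) + 1) := rfl
    rw [hb]
    split_ifs
    · rw [add_zero]
      exact num_first t
    · have := hf0 t
      linarith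
  refine (Finset.sum_le_sum h1).trans ?_
  rw [Finset.sum_add_distrib]
  have h2 : ∑ t ∈ Finset.Ico T m, f t ≤ ε / 2 := by
    rw [Finset.sum_Ico_eq_sum_range]
    have hs : Summable (fun k => f (k + T)) := (summable_nat_add_iff T).2 hsum
    have h3 : ∑ k ∈ Finset.range (m - T), f (T + k) ≤ ∑' k, f (k + T) := by
      have := hs.sum_le_tsum (Finset.range (m - T)) (fun k _ => hf0 _)
      refine le_trans (le_of_eq ?_) this
      exact Finset.sum_congr rfl fun k _ => by rw [add_comm]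
    exact h3.trans (hT₁ T hT1).le
  have h3 := second_tail T m hT16 hm
  have hNs : N ≤ Nat.sqrt (Nat.sqrt T) := by
    rw [Nat.le_sqrt, Nat.le_sqrt]
    calc N * N * (N * N) = N ^ 4 := by ring
      _ ≤ T := hTN
  have hNpos : (0 : ℝ) < N := lt_trans (by positivity) hN
  have h4 : 8 / (Nat.sqrt (Nat.sqrt T) : ℝ) ≤ ε / 2 := by
    have h5 : (N : ℝ) ≤ (Nat.sqrt (Nat.sqrt T) : ℝ) := by exact_mod_cast hNs
    have h6 : 16 / ε ≤ (Nat.sqrt (Nat.sqrt T) : ℝ) := hN.le.trans h5
    have h7 : (0 : ℝ) < (Nat.sqrt (Nat.sqrt T) : ℝ) := lt_of_lt_of_le hNpos h5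
    rw [div_le_iff₀ hε] at h6
    rw [div_le_iff₀ h7]
    linarith
  linarith

end Pool.Agent.Helper15.CT
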